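import Pool.Agent.helper77.BND.SpecB

/-! Project bnd, row BMO: the algebras `S m` increase. -/

set_option autoImplicit false

open scoped Topology Matrix
open Filter Finset

namespace Pool.Agent.BND

open Pool.Agent.CZ Pool.Agent.PV

theorem BMO (hSTN : STN_stmt) : BMO_stmt := by
  intro B M _ α A _ ι u c h m a I
  have hB := h.bs
  refine ⟨?_, ?_, ?_⟩
  · intro n x y hxy
    obtain ⟨e, s, i, he, hs, hi, hx⟩ := (x.2 (m + 1)).1
    have h1 := (x.2 m).2 e s i he hs hi hx
    have h2 := (y.2 m).2 e s i he hs hi (hxy ▸ hx)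
    exact I.lev n x y (h1.trans h2.symm)
  · intro n x e s i he hs hi hx hn
    obtain ⟨b, j, i₀, -, hb1, hb2, hj, hij, hle, hst, -⟩ := hSTN B M hB m e s i he hs hi
    have h1 := (x.2 m).2 e s i he hs hi hx
    rw [hij, hst j hj] at h1
    refine I.van n x b.1 b.2 j hb1 hb2 hj h1 ?_
    rintro ⟨h2, h3⟩
    apply hn
    constructor
    · rw [hij]
      push_cast
      omega
    · rw [hij]
      push_cast
      omega
  · intro H hH
    refine I.sum H fun e he => ?_
    obtain ⟨e', s', he', hs', hmem⟩ := hB.cov m e 0 he ⟨le_rfl, zero_le_one⟩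
    have h1 := hB.htw m e' s' he' hs'
    have h2 : (B.L m).h e ≤ hw (B.L m).h (B.w m e' s') := by
      unfold hw
      exact List.single_le_sum (fun _ _ => Nat.zero_le _) _ (List.mem_map.mpr ⟨(e, 0), hmem, rfl⟩)
    exact h2.trans (h1.le.trans (hH e' he'))

end Pool.Agent.BND
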