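import Pool.Agent.helper53.BND.SpecT

/-! Row bnd:TUQ. -/

set_option autoImplicit false

open scoped Topology
open Finset Filter

namespace Pool.Agent.BND

open Pool.Agent.CZ Pool.Agent.PV Pool.Agent.PVH

/-- a strictly positive element takes the same value at `t` and `t'` -/
theorem TUQ_pos {E : Type} [TopologicalSpace E] {K : Set E} {H : Type} [AddCommGroup H]
    (ρ : H →+ C(K, ℝ)) (g : H) (B : BS) (M : ℕ → ℕ → ℕ → ℕ) (th : ℕ → ℕ → H) (H' : AddSubgroup H)
    (hT : IsTh B M (KP K ρ) g th H') (t t' : K)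
    (h : ∀ m v, v < (B.L m).n → ρ (th m v) t = ρ (th m v) t') (y : H) (hy : KP K ρ y) :
    ρ y t = ρ y t' := by
  obtain ⟨m, c, hc⟩ := hT.span y hy
  have key : ∀ s : K, ρ y s = ∑ v ∈ range (B.L m).n, (c v : ℝ) * ρ (th m v) s := by
    intro s
    rw [hc, map_sum, ContinuousMap.sum_apply]
    refine Finset.sum_congr rfl fun v _ => ?_
    rw [map_nsmul, ContinuousMap.smul_apply, nsmul_eq_mul]
  rw [key t, key t']
  refine Finset.sum_congr rfl fun v hv => ?_
  rw [h m v (Finset.mem_range.1 hv)]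

/-- every element becomes strictly positive after adding a multiple of the unit -/
theorem TUQ_shift {E : Type} [AddCommGroup E] [Module ℝ E] [TopologicalSpace E] {K : Set E} {H : Type} [AddCommGroup H]
    (ρ : H →+ C(K, ℝ)) (g : H) (hK : KD K ρ g) (y : H) : ∃ N : ℕ, KP K ρ (y + N • g) := by
  have : CompactSpace K := isCompact_iff_compactSpace.1 hK.compact
  obtain ⟨N, hN⟩ := exists_nat_gt ‖ρ y‖
  refine ⟨N, fun s => ?_⟩
  have h1 : |ρ y s| ≤ ‖ρ y‖ := by
    have := (ρ y).norm_coe_le_norm s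
    rwa [Real.norm_eq_abs] at this
  rw [map_add, map_nsmul, hK.one, ContinuousMap.add_apply, ContinuousMap.smul_apply,
    ContinuousMap.one_apply, nsmul_eq_mul, mul_one]
  have h2 := (abs_le.1 h1).1
  linarith

theorem TUQ (hSPK : Pool.Agent.PVH.SPK_stmt) : TUQ_stmt := by
  intro E _ _ _ _ _ _ _ K H _ ρ g hK B M th H' hT t t' h
  refine hSPK E K H ρ g hK t t' fun y => ?_
  obtain ⟨N, hN⟩ := TUQ_shift ρ g hK y
  have h1 := TUQ_pos ρ g B M th H' hT t t' h _ hN
  rw [map_add, map_nsmul, hK.one, ContinuousMap.add_apply, ContinuousMap.smul_apply,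
    ContinuousMap.one_apply, ContinuousMap.add_apply, ContinuousMap.smul_apply,
    ContinuousMap.one_apply] at h1
  exact add_right_cancel h1

end Pool.Agent.BND
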