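import Pool.Agent.helper77.BND.SpecD

/-! Project bnd, row XSU: every point of a graph of floors is a coordinate. -/

set_option autoImplicit false

open scoped Topology
open Finset

namespace Pool.Agent.BND

open Pool.Agent.CZ Pool.Agent.PV

/-- the coordinates above -/
noncomputable def XSU_f (φ : ℕ → Am → Am) (m : ℕ) (y : Am) : ℕ → Am
  | 0 => y
  | d + 1 => φ (m + d) (XSU_f φ m y d)

/-- the coordinates below -/
noncomputable def XSU_g (p : ℕ → Am → Am) (m : ℕ) (y : Am) : ℕ → Am
  | 0 => y
  | j + 1 => p (m - j - 1) (XSU_g p m y j)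

theorem XSU (hPMA : PMA_stmt) (hSTL : STL_stmt) : XSU_stmt := by
  intro B M hB m y hy
  obtain ⟨p, q, r, hp, -, -⟩ := hPMA B M hB
  -- `p m` is onto
  have honto : ∀ m, ∀ y ∈ FS (B.L m), ∃ z ∈ FS (B.L (m + 1)), p m z = y := by
    rintro m y ⟨e, t, i, he, ht, hi, rfl⟩
    obtain ⟨e', s', he', hs', hmem⟩ := hB.cov m e t he ht
    obtain ⟨i₀, h1, h2⟩ := hSTL B M hB m e' s' he' hs' (e, t) hmem
    have h3 : i₀ + i < (B.L (m + 1)).h e' := by
      have : i₀ + (B.L m).h e ≤ (B.L (m + 1)).h e' := h1
      omega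
    refine ⟨emb (B.L (m + 1)) e' s' (i₀ + i), ⟨e', s', i₀ + i, he', hs', h3, rfl⟩, ?_⟩
    rw [hp.val m e' s' (i₀ + i) he' hs' h3]
    exact h2 i hi
  choose! φ hφ1 hφ2 using honto
  have hf : ∀ d, XSU_f φ m y d ∈ FS (B.L (m + d)) := by
    intro d
    induction d with
    | zero => exact hy
    | succ d ih => exact hφ1 (m + d) _ ih
  have hg : ∀ j, j ≤ m → XSU_g p m y j ∈ FS (B.L (m - j)) := by
    intro j
    induction j with
    | zero => intro _; exact hy
    | succ j ih =>
      intro hj
      have h1 := ih (by omega)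
      have e1 : m - j = (m - j - 1) + 1 := by omega
      rw [e1] at h1
      have h2 := hp.maps (m - j - 1) _ h1
      have e2 : m - (j + 1) = m - j - 1 := by omega
      rw [e2]
      exact h2
  let x : ℕ → Am := fun k => if m ≤ k then XSU_f φ m y (k - m) else XSU_g p m y (m - k)
  have hxF : ∀ k, x k ∈ FS (B.L k) := by
    intro k
    by_cases hk : m ≤ k
    · have h1 := hf (k - m)
      rw [Nat.add_sub_cancel' hk] at h1
      simp only [x, if_pos hk]
      exact h1
    · have h1 := hg (m - k) (Nat.sub_le _ _)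
      have e1 : m - (m - k) = k := by omega
      rw [e1] at h1
      simp only [x, if_neg hk]
      exact h1
  have hxp : ∀ k, x k = p k (x (k + 1)) := by
    intro k
    by_cases hk : m ≤ k
    · have hk' : m ≤ k + 1 := by omega
      have e1 : k + 1 - m = (k - m) + 1 := by omega
      have h1 : x (k + 1) = φ k (x k) := by
        simp only [x, if_pos hk, if_pos hk', e1, XSU_f]
        rw [Nat.add_sub_cancel' hk]
      rw [h1, hφ2 k _ (hxF k)]
    · have h0 : x k = XSU_g p m y (m - k) := by simp only [x, if_neg hk]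
      have e1 : m - k = (m - k - 1) + 1 := by omega
      have h1 : x (k + 1) = XSU_g p m y (m - k - 1) := by
        by_cases hk' : m ≤ k + 1
        · have e2 : k + 1 - m = 0 := by omega
          have e3 : m - k - 1 = 0 := by omega
          simp only [x, if_pos hk', e2, e3, XSU_f, XSU_g]
        · have e2 : m - (k + 1) = m - k - 1 := by omega
          simp only [x, if_neg hk', e2]
      rw [h0, h1, e1]
      simp only [XSU_g]
      have e4 : m - (m - k - 1) - 1 = k := by omega
      rw [e4]
      rfl
  refine ⟨⟨x, fun k => ⟨hxF k, ?_⟩⟩, ?_⟩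
  · intro e s i he hs hi hx
    rw [hxp k, hx]
    exact hp.val k e s i he hs hi
  · simp only [x, if_pos (le_refl m), Nat.sub_self, XSU_f]

end Pool.Agent.BND
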